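import Pool.Agent.Q202.Steiner.Main
import Mathlib.FieldTheory.Finite.GaloisField
import Mathlib.Data.Finsupp.Encodable
import Mathlib.Data.Finsupp.Fintype

/-!
# A 2-transitive Steiner 2-system whose automorphism group preserves a Steiner 3-system

`Ω` is the vector space of countable dimension over the field with four elements, `B` is the
family of its affine lines, and `C` is the family of all sets `{a, b, c, a + b + c}` with
`a, b, c` distinct. All blocks of `B` and of `C` have exactly four points.
-/

open Q202.Steiner

namespace Pool.Agent.Results.MP_19fe04_lc.TwoAndThree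

/-- **There are a countably infinite set `Ω`, a Steiner `2`-system `B` on `Ω` and a Steiner
`3`-system `C` on `Ω`, all of whose blocks have exactly four points, such that the automorphism
group of `(Ω, B)` is `2`-transitive and preserves `C`.** -/
theorem result : ∃ (Ω : Type) (B C : Set (Set Ω)), Countable Ω ∧ Infinite Ω ∧
    IsSteinerSystem 2 B ∧ IsSteinerSystem 3 C ∧
    (∀ b ∈ B, b.encard = 4) ∧ (∀ c ∈ C, c.encard = 4) ∧
    IsKTransitive (Aut B) 2 ∧ Aut B ⊆ Aut C := by
  let K := GaloisField 2 2
  haveI : Finite K := inferInstance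
  have hN : Nat.card K = 4 := by
    have := GaloisField.card 2 2 (by norm_num)
    simpa using this
  have h4 : ENat.card K = 4 := by
    rw [ENat.card_eq_coe_natCard, hN]; rfl
  have h2 : ∀ x : ℕ →₀ K, x + x = 0 := by
    intro x
    ext n
    rw [Finsupp.add_apply]
    exact CharTwo.add_self_eq_zero _
  obtain ⟨t, ht0, ht1⟩ : ∃ t : K, t ≠ 0 ∧ t ≠ 1 := by
    by_contra hcon
    push Not at hcon
    have hsub : (Set.univ : Set K) ⊆ {0, 1} := by
      intro t _
      by_cases h0 : t = 0
      · simp [h0]
      · simp [hcon t h0]
    have h1 := Set.encard_le_encard hsub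
    rw [Set.encard_univ, h4, Set.encard_pair zero_ne_one] at h1
    exact absurd h1 (by decide)
  refine ⟨ℕ →₀ K, lines K (ℕ →₀ K), quads (ℕ →₀ K), inferInstance, inferInstance,
    steiner_lines h4, steiner_quads h2, ?_, ?_, two_transitive, ?_⟩
  · rintro b ⟨a, v, hv, rfl⟩
    rw [encard_line hv, h4]
  · rintro c ⟨a, b, c, hab, hac, hbc, rfl⟩
    exact quad_card h2 hab hac hbc
  · intro g hg
    exact preserves_quads h4 h2 ht0 ht1 hg

end Pool.Agent.Results.MP_19fe04_lc.TwoAndThree
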